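import Mathlib
import Pool.Agent.V11215.GH

/-!
MP_1d6438_gt, Q1 (negated form): a metric space with closed discrete distance set which is at
Gromov–Hausdorff distance `0` from a non-isometric space.
-/

set_option autoImplicit false

namespace Pool.Agent.Results.MP_1d6438_gt.ClosedDiscreteNotUnique

open Set Metric Filter Topology
open Pool.Agent.V11215.GH
open scoped ENNReal

/-- The points: hubs `h i`, leaves `n i`, and `inf`. -/
inductive Pt : Type
  | h (i : ℕ) : Pt
  | n (i : ℕ) : Pt
  | inf : Pt

noncomputable def b (i : ℕ) : ℝ := i + 3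
noncomputable def b' (i : ℕ) : ℝ := i + 3 + 1 / (i + 3)

theorem b_ge (i : ℕ) : 3 ≤ b i := by
  unfold b
  have : (0 : ℝ) ≤ i := Nat.cast_nonneg i
  linarith

theorem b_mono {i j : ℕ} (h : i ≤ j) : b i ≤ b j := by
  unfold b
  have : (i : ℝ) ≤ j := by exact_mod_cast h
  linarith

theorem frac_pos (i : ℕ) : (0 : ℝ) < 1 / ((i : ℝ) + 3) := by positivity

theorem frac_lt (i : ℕ) : 1 / ((i : ℝ) + 3) < 1 := by
  have : (0 : ℝ) ≤ i := Nat.cast_nonneg i
  rw [div_lt_one (by linarith)]
  linarith

theorem b'_gt (i : ℕ) : b i < b' i := by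
  unfold b b'
  have := frac_pos i
  linarith

theorem b'_lt (i : ℕ) : b' i < b i + 1 := by
  unfold b b'
  have := frac_lt i
  linarith

/-- The distance. -/
noncomputable def d : Pt → Pt → ℝ
  | .h i, .h j => if i = j then 0 else b (max i j)
  | .h i, .n j => if i = j then b' i else b i
  | .n j, .h i => if i = j then b' i else b i
  | .h i, .inf => b i
  | .inf, .h i => b i
  | .n i, .n j => if i = j then 0 else 1
  | .n _, .inf => 1
  | .inf, .n _ => 1
  | .inf, .inf => 0

theorem d_self (x : Pt) : d x x = 0 := by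
  cases x <;> simp [d]

theorem d_comm (x y : Pt) : d x y = d y x := by
  cases x <;> cases y <;> simp [d, eq_comm, max_comm]

theorem b_max_le (i k : ℕ) : b (max i k) ≤ b i + b k := by
  have := b_ge i
  have := b_ge k
  rcases le_total i k with h | h
  · rw [max_eq_right h]
    linarith
  · rw [max_eq_left h]
    linarith

theorem b_max_tri (i j k : ℕ) : b (max i k) ≤ b (max i j) + b (max j k) := by
  rcases le_total i k with h | h
  · rw [max_eq_right h]
    have := b_mono (le_max_right j k)
    have := b_ge (max i j)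
    linarith
  · rw [max_eq_left h]
    have := b_mono (le_max_left i j)
    have := b_ge (max j k)
    linarith

theorem b_le_max_left (i j : ℕ) : b i ≤ b (max i j) := b_mono (le_max_left i j)

theorem b_le_max_right (i j : ℕ) : b j ≤ b (max i j) := b_mono (le_max_right i j)

theorem d_triangle (x y z : Pt) : d x z ≤ d x y + d y z := by
  rcases x with i | i | _ <;> rcases y with j | j | _ <;> rcases z with k | k | _ <;>
    simp only [d] <;> (try split_ifs) <;> subst_vars <;> (try contradiction) <;>
    (try have hi1 := b_ge i) <;> (try have hi2 := b'_gt i) <;> (try have hi3 := b'_lt i) <;>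
    (try have hj1 := b_ge j) <;> (try have hj2 := b'_gt j) <;> (try have hj3 := b'_lt j) <;>
    (try have hk1 := b_ge k) <;> (try have hk2 := b'_gt k) <;> (try have hk3 := b'_lt k) <;>
    (try have h1 := b_max_tri i j k) <;> (try have h2 := b_le_max_left i j) <;>
    (try have h3 := b_le_max_right i j) <;> (try have h2 := b_le_max_left i k) <;>
    (try have h3 := b_le_max_right i k) <;> (try have h2 := b_le_max_left j k) <;>
    (try have h3 := b_le_max_right j k) <;> (try have h4 := b_max_le i k) <;>
    (try have h4 := b_ge (max i k)) <;> (try have h5 := b_ge (max k j)) <;>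
    (try have h6 := b_le_max_left k j) <;> (try have h6 := b_max_le j k) <;> linarith

theorem eq_of_d (x y : Pt) (h : d x y = 0) : x = y := by
  rcases x with i | i | _ <;> rcases y with j | j | _ <;> simp only [d] at h <;>
    (try split_ifs at h) <;> subst_vars <;> simp_all <;>
    (first
      | linarith [b_ge i, b'_gt i]
      | linarith [b_ge j, b'_gt j]
      | linarith [b_ge (max i j)])

noncomputable instance : MetricSpace Pt where
  dist := d
  dist_self := d_self
  dist_comm := d_comm
  dist_triangle := d_triangle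
  eq_of_dist_eq_zero := fun {x y} h => eq_of_d x y h

theorem dist_def (x y : Pt) : dist x y = d x y := rfl

/-- The subspace `Y = X ∖ {∞}`. -/
abbrev Yt : Type := {p : Pt // p ≠ Pt.inf}

/-! ### The distance set -/

theorem dist_mem (x y : Pt) : dist x y ∈ ({0, 1} : Set ℝ) ∪ range b ∪ range b' := by
  rw [dist_def]
  rcases x with i | i | _ <;> rcases y with j | j | _ <;> simp only [d] <;>
    (try split_ifs) <;> simp

theorem finite_inter (x : ℝ) :
    ((({0, 1} : Set ℝ) ∪ range b ∪ range b') ∩ Icc (x - 1) (x + 1)).Finite := by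
  obtain ⟨N, hN⟩ := exists_nat_gt (x + 1)
  have hsub : ((({0, 1} : Set ℝ) ∪ range b ∪ range b') ∩ Icc (x - 1) (x + 1)) ⊆
      ({0, 1} : Set ℝ) ∪ b '' (Iio N) ∪ b' '' (Iio N) := by
    rintro y ⟨(hy | ⟨i, rfl⟩) | ⟨i, rfl⟩, hy'⟩
    · exact Or.inl (Or.inl hy)
    · refine Or.inl (Or.inr ⟨i, ?_, rfl⟩)
      have h1 : b i ≤ x + 1 := hy'.2
      unfold b at h1
      have : (i : ℝ) < N := by linarith
      exact_mod_cast this
    · refine Or.inr ⟨i, ?_, rfl⟩
      have h1 : b' i ≤ x + 1 := hy'.2
      have h2 := b'_gt i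
      unfold b at h2
      have : (i : ℝ) < N := by linarith
      exact_mod_cast this
  refine Set.Finite.subset ?_ hsub
  exact ((Set.toFinite _).union ((finite_Iio N).image _)).union ((finite_Iio N).image _)

theorem closed_discrete (D : Set ℝ) (hD : ∀ x : ℝ, (D ∩ Icc (x - 1) (x + 1)).Finite) :
    IsClosed D ∧ IsDiscrete D := by
  rw [isClosed_and_discrete_iff]
  intro x
  rw [disjoint_principal_right, mem_nhdsWithin_iff_exists_mem_nhds_inter]
  refine ⟨((D ∩ Icc (x - 1) (x + 1)) \ {x})ᶜ ∩ Icc (x - 1) (x + 1), ?_, ?_⟩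
  · refine inter_mem ?_ (Icc_mem_nhds (by linarith) (by linarith))
    have hc : IsClosed ((D ∩ Icc (x - 1) (x + 1)) \ {x}) := ((hD x).sdiff).isClosed
    exact hc.isOpen_compl.mem_nhds (fun h => h.2 rfl)
  · rintro y ⟨⟨h1, h2⟩, h3⟩ hy
    exact h1 ⟨⟨hy, h2⟩, h3⟩

theorem distSet_closed_discrete :
    IsClosed {r : ℝ | ∃ x y : Pt, dist x y = r} ∧ IsDiscrete {r : ℝ | ∃ x y : Pt, dist x y = r} := by
  apply closed_discrete
  intro x
  apply (finite_inter x).subset
  apply inter_subset_inter_left
  rintro _ ⟨p, q, rfl⟩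
  exact dist_mem p q

/-! ### The Gromov–Hausdorff distance vanishes -/

/-- The bijection `X → Y` sending `∞` to the leaf `k` and shifting the leaves `≥ k`. -/
def sh (k : ℕ) : Pt → Pt
  | .h i => .h i
  | .n i => if i < k then .n i else .n (i + 1)
  | .inf => .n k

theorem sh_ne (k : ℕ) (x : Pt) : sh k x ≠ Pt.inf := by
  rcases x with i | i | _ <;> simp only [sh] <;> (try split_ifs) <;> simp

theorem sh_surj (k : ℕ) (y : Yt) : ∃ x, sh k x = y.1 := by
  obtain ⟨y, hy⟩ := y
  rcases y with i | i | _
  · exact ⟨.h i, rfl⟩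
  · rcases lt_trichotomy i k with h | h | h
    · refine ⟨.n i, ?_⟩
      simp [sh, h]
    · refine ⟨.inf, ?_⟩
      simp [sh, h]
    · refine ⟨.n (i - 1), ?_⟩
      have : ¬ (i - 1 < k) := by omega
      simp only [sh, this, if_false]
      congr 1
      omega
  · exact absurd rfl hy

theorem b'_sub (i : ℕ) : b' i - b i = 1 / ((i : ℝ) + 3) := by
  unfold b b'
  ring

theorem frac_le {i k : ℕ} (h : k ≤ i) : 1 / ((i : ℝ) + 3) ≤ 1 / ((k : ℝ) + 3) := by
  apply one_div_le_one_div_of_le (by positivity)
  have : (k : ℝ) ≤ i := by exact_mod_cast h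
  linarith

theorem sh_dist (k : ℕ) (x y : Pt) : |d x y - d (sh k x) (sh k y)| ≤ 1 / ((k : ℝ) + 3) := by
  have hk := frac_pos k
  have key : ∀ i j, k ≤ j → |d (.h i) (.n j) - d (.h i) (.n (j + 1))| ≤ 1 / ((k : ℝ) + 3) := by
    intro i j hj
    simp only [d]
    split_ifs with h1 h2 h2
    · omega
    · subst h1
      rw [b'_sub, abs_of_pos (frac_pos i)]
      exact frac_le hj
    · subst h2
      rw [abs_sub_comm, b'_sub, abs_of_pos (frac_pos _)]
      exact frac_le (by omega)
    · simpa using hk.le
  have key2 : ∀ i, |d (.h i) .inf - d (.h i) (.n k)| ≤ 1 / ((k : ℝ) + 3) := by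
    intro i
    simp only [d]
    split_ifs with h1
    · subst h1
      rw [abs_sub_comm, b'_sub, abs_of_pos (frac_pos _)]
    · simpa using hk.le
  rcases x with i | i | _ <;> rcases y with j | j | _
  · simp only [sh, sub_self, abs_zero]
    exact hk.le
  · by_cases h : j < k
    · simp only [sh, h, if_true, sub_self, abs_zero]
      exact hk.le
    · simp only [sh, h, if_false]
      exact key i j (by omega)
  · simp only [sh]
    exact key2 i
  · rw [d_comm, d_comm (sh k _)]
    by_cases h : i < k
    · simp only [sh, h, if_true, sub_self, abs_zero]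
      exact hk.le
    · simp only [sh, h, if_false]
      exact key j i (by omega)
  · have : d (.n i) (.n j) = d (sh k (.n i)) (sh k (.n j)) := by
      by_cases h : i < k <;> by_cases h' : j < k <;> simp only [sh, h, h', if_false, if_true, d]
      · by_cases h'' : i = j
        · omega
        · rw [if_neg h'', if_neg (by omega)]
      · by_cases h'' : i = j
        · omega
        · rw [if_neg h'', if_neg (by omega)]
      · by_cases h'' : i = j
        · rw [if_pos h'', if_pos (by omega)]
        · rw [if_neg h'', if_neg (by omega)]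
    rw [this]
    simpa using hk.le
  · have : d (.n i) .inf = d (sh k (.n i)) (sh k .inf) := by
      by_cases h : i < k <;> simp only [sh, h, if_false, if_true, d] <;> rw [if_neg (by omega)]
    rw [this]
    simpa using hk.le
  · rw [d_comm, d_comm (sh k _)]
    simp only [sh]
    exact key2 j
  · have : d .inf (.n j) = d (sh k .inf) (sh k (.n j)) := by
      by_cases h : j < k <;> simp only [sh, h, if_false, if_true, d] <;> rw [if_neg (by omega)]
    rw [this]
    simpa using hk.le
  · simp only [d_self, sub_self, abs_zero]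
    exact hk.le

theorem ghDist_eq_zero : ghDist Pt Yt = 0 := by
  rw [← nonpos_iff_eq_zero]
  refine ENNReal.le_of_forall_pos_le_add ?_
  intro ε hε _
  rw [zero_add]
  obtain ⟨k, hk⟩ := exists_nat_one_div_lt (show (0 : ℝ) < ε by exact_mod_cast hε)
  have : Nonempty Pt := ⟨Pt.inf⟩
  have h3 : (1 : ℝ) / ((k : ℝ) + 3) < ε := by
    refine lt_of_le_of_lt ?_ hk
    apply one_div_le_one_div_of_le (by positivity)
    linarith
  have := ghDist_le (X := Pt) (Y := Yt) (fun x y => sh k x = y.1)
    (fun x => ⟨⟨sh k x, sh_ne k x⟩, rfl⟩) (fun y => sh_surj k y) (1 / ((k : ℝ) + 3))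
    (frac_pos k) ?_
  · refine this.trans ?_
    rw [← ENNReal.ofReal_coe_nnreal]
    exact ENNReal.ofReal_le_ofReal h3.le
  · rintro x y x' y' hx hx'
    rw [Subtype.dist_eq, ← hx, ← hx', dist_def, dist_def]
    refine (sh_dist k x x').trans ?_
    have := frac_pos k
    linarith

/-! ### The spaces are not isometric -/

theorem b'_ne (i j : ℕ) : b' i ≠ b j := by
  unfold b b'
  intro h
  have h1 := frac_pos i
  have h2 := frac_lt i
  have h3 : (i : ℝ) < j := by linarith
  have h4 : (j : ℝ) < i + 1 := by linarith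
  have h5 : i < j := by exact_mod_cast h3
  have h6 : j < i + 1 := by exact_mod_cast h4
  omega

theorem one_lt_b (j : ℕ) : 1 < b j := by
  have := b_ge j
  linarith

/-- All distances from `∞` are different from all the `b' i`. -/
theorem d_inf_ne (x : Pt) (i : ℕ) : d .inf x ≠ b' i := by
  rcases x with j | j | _
  · exact fun h => b'_ne i j h.symm
  · intro h
    have h' : (1 : ℝ) = b' i := h
    have := b'_gt i
    have := b_ge i
    linarith
  · intro h
    have h' : (0 : ℝ) = b' i := h
    have := b'_gt i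
    have := b_ge i
    linarith

/-- In `Y` every point has a distance `b' i` to some point. -/
theorem exists_dist_b' (y : Yt) : ∃ (z : Yt) (i : ℕ), dist y z = b' i := by
  obtain ⟨y, hy⟩ := y
  rcases y with i | i | _
  · refine ⟨⟨.n i, by simp⟩, i, ?_⟩
    rw [Subtype.dist_eq, dist_def]
    simp [d]
  · refine ⟨⟨.h i, by simp⟩, i, ?_⟩
    rw [Subtype.dist_eq, dist_def]
    simp [d]
  · exact absurd rfl hy

theorem not_isometric : IsEmpty (Pt ≃ᵢ Yt) := by
  refine ⟨fun e => ?_⟩
  obtain ⟨z, i, hz⟩ := exists_dist_b' (e .inf)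
  have h : dist Pt.inf (e.symm z) = b' i := by
    rw [← hz, ← e.dist_eq, e.apply_symm_apply]
  exact d_inf_ne _ _ h

/-- There are a metric space `X` whose distance set is a closed discrete subset of `ℝ` and a metric
space `Y` with `d_GH(X, Y) = 0` such that `X` and `Y` are not isometric. -/
theorem result : ∃ (X Y : Type) (_ : MetricSpace X) (_ : MetricSpace Y),
    Nonempty X ∧ Nonempty Y ∧
    IsClosed {r : ℝ | ∃ x x' : X, dist x x' = r} ∧
    IsDiscrete {r : ℝ | ∃ x x' : X, dist x x' = r} ∧
    ghDist X Y = 0 ∧ IsEmpty (X ≃ᵢ Y) :=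
  ⟨Pt, Yt, inferInstance, inferInstance, ⟨Pt.inf⟩, ⟨⟨Pt.h 0, by simp⟩⟩,
    distSet_closed_discrete.1, distSet_closed_discrete.2, ghDist_eq_zero, not_isometric⟩

end Pool.Agent.Results.MP_1d6438_gt.ClosedDiscreteNotUnique
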